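import Pool.Agent.helper95.KU.Kernel

/-! # The kernel of the Künneth map on `K₀ ⊗ K₀` consists of invisible classes -/

set_option autoImplicit false

open scoped TensorProduct
open Pool.Agent.KU

namespace Pool.Agent.Results.MP_86ff1d_an.PhantomKernel

universe u v w

/-- Let `C` be a C*-tensor product of the unital C*-algebras `A` and `B`, where `A` is nuclear or
`C` is the maximal tensor product, and let `K₀(B)` be torsion free.  Every element of the kernel
of the Künneth map `K₀(A) ⊗ K₀(B) → K₀(C)` is `∑ x k ⊗ y k + ∑ t k ⊗ w k` where the `t k` have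
finite order, the `x k` and the `y k` are linearly independent, all `x k` are invisible in `K₀(A)`
and all `y k` are invisible in `K₀(B)`. -/
theorem result {A B C : Type u} [CStarAlgebra A] [CStarAlgebra B] [CStarAlgebra C]
    (i : A →⋆ₐ[ℂ] C) (j : B →⋆ₐ[ℂ] C) (hC : IsTensor i j) (hA : IsNuclear A ∨ IsMax i j)
    (hB : TorFree (K0 B)) (z : K0 A ⊗[ℤ] K0 B) (hz : alpha i j hC.comm z = 0) :
    ∃ (s r : ℕ) (x : Fin s → K0 A) (y : Fin s → K0 B) (t : Fin r → K0 A) (w : Fin r → K0 B),
      z = ∑ k, x k ⊗ₜ[ℤ] y k + ∑ k, t k ⊗ₜ[ℤ] w k ∧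
      LinearIndependent ℤ x ∧ LinearIndependent ℤ y ∧
      (∀ k, Invisible.{u, v, w} A B (x k)) ∧ (∀ k, Invisible.{u, v, w} B A (y k)) ∧
      ∀ k, ∃ N : ℕ, N ≠ 0 ∧ N • t k = 0 := by
  have hmax : IsMax i j := by
    rcases hA with h | h
    · exact isMax_of_unique hC (h B)
    · exact h
  exact kernel_invisible hC hmax hB z hz

end Pool.Agent.Results.MP_86ff1d_an.PhantomKernel
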